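import Pool.Agent.TH699.TS.Fin

/-!
Length and space of dag-like refutations whose lines are systems of polynomial equations modulo any
numbers, or negations of such systems: there are CNF formulas of bounded width with refutations of
degree `k + 1` of linear length in constant space for which refutations of degree `k` in constant
space have length `2^Ω(N)`, and refutations of degree `k` of polynomial length have space
`Ω(N / log N)`.
-/

open Finset

namespace Pool.Agent.Results.MP_7a4ff1_lc.DegreeSpace

open Pool.Agent.H642R2.Dual Pool.Agent.TH699.TD Pool.Agent.TH699.TS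

/-- For all `k ≥ 1` and `n ≥ 25` there is an unsatisfiable CNF formula `Φ` whose number `N` of
variables is between `n` and `C n`, where `C = 2^(3k+13)`, with at most `2^C n` clauses, each with
at most `C` literals, such that
* `Φ` has a blackboard refutation of length at most `2^C n` and space `C` whose lines are systems of
  at most `N + 1` polynomial equations of degree at most `k + 1` modulo 2 or negations of such
  systems, but
* every (dag-like) semantic blackboard refutation of `Φ` whose lines are systems of polynomial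
  equations of degree at most `k`, each modulo an arbitrary number, or negations of such systems,
  of length `l` and space `s`, satisfies `(s + 2) (log₂ l + 3) ≥ N/C`. -/
theorem result (k n : ℕ) (hk : 1 ≤ k) (hn : 25 ≤ n) :
    ∃ (V : Type) (_ : Fintype V) (_ : DecidableEq V) (Φ : Finset (Clause V)),
      n ≤ Fintype.card V ∧ Fintype.card V ≤ 2 ^ (3 * k + 13) * n ∧
      Φ.card ≤ 2 ^ 2 ^ (3 * k + 13) * n ∧ (∀ C ∈ Φ, C.card ≤ 2 ^ (3 * k + 13)) ∧
      (∀ x, ∃ C ∈ Φ, ¬ Sat C x) ∧
      (∃ (l : ℕ) (cfg : ℕ → List (Line V)), l ≤ 2 ^ 2 ^ (3 * k + 13) * n ∧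
        IsBoard (ClauseAx Φ) (2 ^ (3 * k + 13)) l cfg ∧
        ∀ i ≤ l, ∀ L ∈ cfg i, Mod2Line (k + 1) L) ∧
      (∀ (s l : ℕ) (cfg : ℕ → List (Line V)), IsBoard (ClauseAx Φ) s l cfg →
        (∀ i ≤ l, ∀ L ∈ cfg i, ModLine k L) →
        (Fintype.card V : ℝ) / 2 ^ (3 * k + 13) ≤ (s + 2) * (Real.logb 2 l + 3)) := by
  obtain ⟨V, i1, i2, Φ, h1, h2, -, h3, h4, h5, -, h6, -, -, h7, -⟩ := exists_all hk hn
  have e1 : 2 ^ (3 * k + 9) ≤ 2 ^ (3 * k + 13) := Nat.pow_le_pow_right (by norm_num) (by omega)
  have e2 : 2 ^ (3 * k + 10) ≤ 2 ^ (3 * k + 13) := Nat.pow_le_pow_right (by norm_num) (by omega)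
  refine ⟨V, i1, i2, Φ, h1, h2.trans (Nat.mul_le_mul_right _ e1),
    h3.trans (Nat.mul_le_mul_right _ (Nat.pow_le_pow_right (by norm_num) e2)),
    fun C hC => (h4 C hC).trans e2, h5, h6, fun s l cfg hb hl => ?_⟩
  have key := h7 s l cfg hb hl
  have hpos : 0 ≤ (s + 2 : ℝ) * (Real.logb 2 l + 3) := by
    have h8 : (0 : ℝ) ≤ Fintype.card V := Nat.cast_nonneg _
    exact nonneg_of_mul_nonneg_right (h8.trans key) (by positivity)
  rw [div_le_iff₀ (by positivity), mul_comm]
  refine key.trans (mul_le_mul_of_nonneg_right ?_ hpos)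
  exact_mod_cast e2

end Pool.Agent.Results.MP_7a4ff1_lc.DegreeSpace
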