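import Pool.Agent.TH708.Ips.Up
import Pool.Agent.TH708.Ips.Big

set_option autoImplicit false

/-!
# Narrow algebraic refutations over every field with at least three elements

Let `K` be a field, for instance a finite field, `c ≠ 0`, `1 + c ≠ 0` in `K`.  The equation
`∏ i j, (1 + c * z i j * x i * x j) = 0` has no solution with Boolean `x i`, `z i j`.  Consider its
linear algebraic refutations `f * ∏ i j, (1 + c * z i j * x i * x j) + ∑ v, h v * (v ^ 2 - v) = 1`.

* If `f` is computed (at Boolean points) by an algebraic branching program of width at most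
  `n ^ (1/128)` every path of which reads every `x i` at most once, then the length is at least
  `2 ^ ((log n)² / 1200)`.
* If the variables may be read many times, width one and length `n ^ 2` are enough.
-/

namespace Pool.Agent.Results.MP_7a4ff1_lc.NarrowRefutationsFiniteFields

open Finset
open Pool.Agent.TH708.Ari
open Pool.Agent.TH708.Ips

theorem bound {K : Type} [Field K] (c : K) (hc : c ≠ 0) {n w L m : ℕ}
    (P : Prog K (Fin n ⊕ (Fin n × Fin n)) w) (T : Finset (Fin n))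
    (hT : 10 ^ 4 ≤ Nat.log 2 T.card)
    (hw : w ^ 128 ≤ T.card) (hm : m ^ 4 ≤ T.card ^ 3)
    (hv : ∀ d v u ℓ, P.edge d v u = some ℓ → (T.filter fun i => Sum.inl i ∈ ℓ.vars).card ≤ m)
    (hd : ∀ i ∈ T, P.deg (Sum.inl i) L P.src ≤ 1) (hI : InvertsProd c (P.eval L)) :
    2 ^ ((Nat.log 2 T.card) ^ 2 / 1200) ≤ L := by
  refine narrow_prog P _ hI.isCount T (fun s hs => ?_) hT hw hm hv hd
  rw [diff_pow, pow_zero, mul_one]
  exact pow_ne_zero _ (inv_ne_one hc)

theorem result :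
    (∀ (K : Type) [Field K] (c : K) (n w L m : ℕ)
      (P : Prog K (Fin n ⊕ (Fin n × Fin n)) w) (T : Finset (Fin n)),
      c ≠ 0 → 10 ^ 4 ≤ Nat.log 2 T.card → w ^ 128 ≤ T.card → m ^ 4 ≤ T.card ^ 3 →
      (∀ d v u ℓ, P.edge d v u = some ℓ → (T.filter fun i => Sum.inl i ∈ ℓ.vars).card ≤ m) →
      (∀ i ∈ T, P.deg (Sum.inl i) L P.src ≤ 1) → InvertsProd c (P.eval L) →
        2 ^ ((Nat.log 2 T.card) ^ 2 / 1200) ≤ L) ∧
    (∀ b : ℕ, ∃ N₀ : ℕ, ∀ n ≥ N₀, ∀ (K : Type) [Field K] (c : K), c ≠ 0 →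
      ¬ ∃ (w L : ℕ) (P : Prog K (Fin n ⊕ (Fin n × Fin n)) w)
        (f : MvPolynomial (Fin n ⊕ (Fin n × Fin n)) K)
        (h : Fin n ⊕ (Fin n × Fin n) → MvPolynomial (Fin n ⊕ (Fin n × Fin n)) K),
        Refutes (prodForm n c) f h ∧
        (∀ p, (∀ v, p v = 0 ∨ p v = 1) → P.eval L p = MvPolynomial.eval p f) ∧
        (∀ i : Fin n, P.deg (Sum.inl i) L P.src ≤ 1) ∧
        (∀ d v u ℓ, P.edge d v u = some ℓ →
          (univ.filter fun i : Fin n => Sum.inl i ∈ ℓ.vars).card ≤ 2) ∧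
        w ^ 128 ≤ n ∧ L ≤ n ^ b + b) ∧
    ∀ (K : Type) [Field K] (c : K) (n : ℕ), 1 + c ≠ 0 →
      ∃ (P : Prog K (Fin n ⊕ (Fin n × Fin n)) 1)
        (f : MvPolynomial (Fin n ⊕ (Fin n × Fin n)) K)
        (h : Fin n ⊕ (Fin n × Fin n) → MvPolynomial (Fin n ⊕ (Fin n × Fin n)) K),
        Refutes (prodForm n c) f h ∧ (∀ p, P.eval (n * n) p = MvPolynomial.eval p f) ∧
        (∀ d v u ℓ, P.edge d v u = some ℓ →
          (univ.filter fun i : Fin n => Sum.inl i ∈ ℓ.vars).card ≤ 2) := by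
  refine ⟨fun K _ c n w L m P T hc h2 h3 h4 h5 h6 h7 => bound c hc P T h2 h3 h4 h5 h6 h7, ?_, ?_⟩
  · intro b
    obtain ⟨N₀, hN₀⟩ := exists_big b
    refine ⟨N₀, fun n hn K _ c hc0 => ?_⟩
    rintro ⟨w, L, P, f, h, g1, g2, g3, g4, g5, g6⟩
    obtain ⟨hn1, hn2⟩ := hN₀ n hn
    have hcard : (Finset.univ : Finset (Fin n)).card = n := by
      rw [Finset.card_univ, Fintype.card_fin]
    have hb := bound (m := 2) c hc0 P Finset.univ (by rw [hcard]; exact hn2)
      (by rw [hcard]; exact g5) (by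
        rw [hcard]
        have h1 : 2 ^ 10 ≤ n := le_trans (Nat.pow_le_pow_right (by norm_num) (by omega)) hn1
        calc 2 ^ 4 ≤ 2 ^ 10 := by norm_num
          _ ≤ n := h1
          _ = n ^ 1 := (pow_one n).symm
          _ ≤ n ^ 3 := Nat.pow_le_pow_right (by omega) (by norm_num)) g4 (fun i _ => g3 i)
      (g1.invertsProd g2)
    rw [hcard] at hb
    exact big b hn1 g6 hb
  · intro K _ c n hc
    obtain ⟨P, f, h, g1, g2, g3⟩ := short n c hc
    exact ⟨P, f, h, g1, g2, g3⟩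

end Pool.Agent.Results.MP_7a4ff1_lc.NarrowRefutationsFiniteFields
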